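import Pool.Agent.helper48.SG.SpecH

/-!
# Module sg:H14 (MP_2b8aea_gt): a far comparison point
-/

set_option autoImplicit false

open MeasureTheory Set Metric Filter Topology
open scoped ENNReal NNReal ComplexConjugate

namespace Pool.Agent.SG

/-- the set on the circle which is seen as `E` from the point `γ⁻¹`. -/
theorem H14_one (hB01 : B01_stmt) (hB05 : B05_stmt) (hB15 : B15_stmt) (hB18 : B18_stmt)
    (hM01 : M01_stmt) {Γ : Type} [Group Γ] (A : DiscRep Γ) (W : Walk Γ) (ν : Measure ℂ)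
    (hst : Stat A W ν) (u ζ : ℂ) (c s K₁ τ : ℝ) (E : Set ℂ) (γ : Γ) (hu : ‖u‖ = 1) (hc : 0 < c)
    (h8 : 8 * s ≤ c) (hs1 : s ≤ 1) (hE : MeasurableSet E) (hEf : E ⊆ far u c)
    (h1 : τ / K₁ ≤ A.kk γ) (h2 : A.kk γ ≤ K₁ * τ) (h3 : ‖ζ - A.pt γ‖ ≤ K₁ * τ)
    (h4 : A.Hu u γ⁻¹ ≤ s) :
    ∃ S : Set ℂ, MeasurableSet S ∧ S ⊆ closedBall ζ ((K₁ + 2 * K₁ / c) * τ) ∧
      τ / (4 * K₁) * lam.real E ≤ lam.real S ∧ (nux A ν γ⁻¹).real E = ν.real S ∧
      (lax A γ⁻¹).real E = lam.real S := by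
  obtain ⟨hprob, hlam0, -, -, -⟩ := hB05
  obtain ⟨-, -, -, -, -, -, -, hmeas, -, -⟩ := hB01 Γ A
  obtain ⟨-, -, -, -, hnux, -⟩ := hM01 Γ A W ν hst
  have hcm : MeasurableSet circ := isClosed_sphere.measurableSet
  have hEc : E ⊆ circ := fun ξ hξ => (hEf hξ).1
  obtain ⟨hb1, hb2⟩ := hB15 Γ A γ E hE hEc
  -- distance of `E` from the point `pt γ⁻¹`
  have hdist : ∀ ξ ∈ E, c / 2 ≤ ‖ξ - A.pt γ⁻¹‖ := by
    intro ξ hξ
    have e1 : c ≤ ‖ξ - u‖ := (hEf hξ).2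
    have e2 := ((hB18 Γ A u hu).2.2.1 γ⁻¹ (h4.trans hs1)).2.2.1
    have e3 : ‖ξ - u‖ ≤ ‖ξ - A.pt γ⁻¹‖ + ‖u - A.pt γ⁻¹‖ := by
      have : ξ - u = (ξ - A.pt γ⁻¹) - (u - A.pt γ⁻¹) := by ring
      rw [this]
      exact norm_sub_le _ _
    linarith
  obtain ⟨-, hb3⟩ := hb2 (c / 2) (by positivity) hdist
  set S : Set ℂ := circ ∩ A.act γ⁻¹ ⁻¹' E with hS
  have hSm : MeasurableSet S := hcm.inter (hmeas γ⁻¹ hE)
  have hlS : lam S = lam (A.act γ⁻¹ ⁻¹' E) := by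
    rw [hS, inter_comm]
    exact measure_inter_conull hlam0
  have hνS : ν S = ν (A.act γ⁻¹ ⁻¹' E) := by
    rw [hS, inter_comm]
    exact measure_inter_conull hst.supp
  refine ⟨S, hSm, ?_, ?_, ?_, ?_⟩
  · rintro ξ ⟨hξ1, hξ2⟩
    have e1 := hb3 ξ hξ1 hξ2
    have e2 : ‖ξ - ζ‖ ≤ ‖ξ - A.pt γ‖ + ‖ζ - A.pt γ‖ := by
      have : ξ - ζ = (ξ - A.pt γ) - (ζ - A.pt γ) := by ring
      rw [this]
      exact norm_sub_le _ _
    have e3 : A.kk γ / (c / 2) ≤ 2 * K₁ / c * τ := by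
      rw [div_le_iff₀ (by positivity)]
      have : 2 * K₁ / c * τ * (c / 2) = K₁ * τ := by
        field_simp
      rw [this]
      exact h2
    rw [mem_closedBall, dist_eq_norm]
    calc ‖ξ - ζ‖ ≤ ‖ξ - A.pt γ‖ + ‖ζ - A.pt γ‖ := e2
      _ ≤ 2 * K₁ / c * τ + K₁ * τ := by linarith
      _ = (K₁ + 2 * K₁ / c) * τ := by ring
  · have e1 : (ENNReal.ofReal (A.kk γ / 4) * lam E).toReal ≤ (lam S).toReal := by
      rw [hlS]
      exact ENNReal.toReal_mono (measure_ne_top _ _) hb1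
    have hkk : 0 ≤ A.kk γ / 4 ∨ A.kk γ / 4 < 0 := le_or_gt _ _
    have hE0 : 0 ≤ lam.real E := measureReal_nonneg
    have e4 : τ / (4 * K₁) ≤ A.kk γ / 4 := by
      have : τ / (4 * K₁) = τ / K₁ / 4 := by
        rw [div_div, mul_comm]
      rw [this]
      linarith
    rcases hkk with hk | hk
    · rw [ENNReal.toReal_mul, ENNReal.toReal_ofReal hk] at e1
      calc τ / (4 * K₁) * lam.real E ≤ A.kk γ / 4 * lam.real E :=
            mul_le_mul_of_nonneg_right e4 hE0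
        _ ≤ lam.real S := e1
    · have : τ / (4 * K₁) * lam.real E ≤ 0 :=
        mul_nonpos_of_nonpos_of_nonneg (by linarith) hE0
      exact this.trans measureReal_nonneg
  · show ((nux A ν γ⁻¹) E).toReal = (ν S).toReal
    rw [hnux γ⁻¹ E hE, hνS]
  · show ((lax A γ⁻¹) E).toReal = (lam S).toReal
    rw [hlS]
    unfold lax
    rw [Measure.map_apply (hmeas γ⁻¹) hE]

theorem H14 (hH12 : H12_stmt) (hH13 : H13_stmt) (hB01 : B01_stmt) (hB05 : B05_stmt)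
    (hB15 : B15_stmt) (hB18 : B18_stmt) (hM01 : M01_stmt) : H14_stmt := by
  intro Γ _ A W ν C hC u c s δ E E' hu hc hs h8 hδ hE hE' hEf hEf' hl hl'
  have hprob : IsProbabilityMeasure lam := hB05.1
  have hνp : IsProbabilityMeasure ν := hC.stat.prob
  obtain ⟨ζ, φ, hζ, hφ, hleb⟩ := hH13 ν C hC.one hC.nu_le hC.le_nu
  obtain ⟨K₁, hK₁, hpts⟩ := hH12 Γ A hC.coc hC.nonel u s hu hs
  -- `s ≤ 1`
  have hs1 : s ≤ 1 := by
    obtain ⟨ξ, hξ⟩ : E.Nonempty := by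
      rw [nonempty_iff_ne_empty]
      intro h0
      rw [h0, measure_empty] at hl
      exact hl rfl
    have h1 : ‖ξ‖ = 1 := by
      have := (hEf hξ).1
      simpa [circ] using this
    have h2 : c ≤ ‖ξ - u‖ := (hEf hξ).2
    have h3 : ‖ξ - u‖ ≤ ‖ξ‖ + ‖u‖ := norm_sub_le _ _
    linarith
  have he : 0 < lam.real E := ENNReal.toReal_pos hl (measure_ne_top _ _)
  have he' : 0 < lam.real E' := ENNReal.toReal_pos hl' (measure_ne_top _ _)
  have hK₁0 : 0 < K₁ := by linarith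
  set K : ℝ := (K₁ + 2 * K₁ / c) + 4 * K₁ / lam.real E + 4 * K₁ / lam.real E' with hK
  have p1 : 0 ≤ 2 * K₁ / c := by positivity
  have p2 : 0 < 4 * K₁ / lam.real E := by positivity
  have p3 : 0 < 4 * K₁ / lam.real E' := by positivity
  have hK1 : 1 ≤ K := by rw [hK]; linarith
  have hK0 : 0 < K := by linarith
  set δ' : ℝ := δ / (2 + δ) with hδ'
  have hδ'0 : 0 < δ' := by positivity
  obtain ⟨τ₀, hτ₀, hL⟩ := hleb δ' hδ'0 K hK1
  set τ : ℝ := min τ₀ 1 with hτ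
  have hτ0 : 0 < τ := lt_min hτ₀ one_pos
  have hτ1 : τ ≤ 1 := min_le_right _ _
  have hττ₀ : τ ≤ τ₀ := min_le_left _ _
  obtain ⟨γ, g1, g2, g3, g4⟩ := hpts ζ τ hζ hτ0 hτ1
  have key : ∀ F : Set ℂ, MeasurableSet F → F ⊆ far u c → 0 < lam.real F →
      4 * K₁ / lam.real F ≤ K →
      (nux A ν γ⁻¹).real F ≤ φ * (1 + δ') * (lax A γ⁻¹).real F ∧
      φ * (1 - δ') * (lax A γ⁻¹).real F ≤ (nux A ν γ⁻¹).real F := by
    intro F hF hFf hF0 hFK
    obtain ⟨S, s1, s2, s3, s4, s5⟩ := H14_one hB01 hB05 hB15 hB18 hM01 A W ν hC.stat u ζ c s K₁ τ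
      F γ hu hc h8 hs1 hF hFf g1 g2 g3 g4
    rw [s4, s5]
    refine hL τ hτ0 hττ₀ S s1 (s2.trans (closedBall_subset_closedBall ?_)) ?_
    · refine mul_le_mul_of_nonneg_right ?_ hτ0.le
      rw [hK]
      linarith
    · have q1 : τ / K ≤ lam.real S := by
        refine le_trans ?_ s3
        rw [div_le_iff₀ hK0]
        rw [div_le_iff₀ hF0] at hFK
        have : τ / (4 * K₁) * lam.real F * K = τ / (4 * K₁) * (K * lam.real F) := by ring
        rw [this]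
        calc τ = τ / (4 * K₁) * (4 * K₁) := by field_simp
          _ ≤ τ / (4 * K₁) * (K * lam.real F) :=
            mul_le_mul_of_nonneg_left hFK (by positivity)
      rw [← ENNReal.ofReal_toReal (measure_ne_top lam S)]
      exact ENNReal.ofReal_le_ofReal q1
  obtain ⟨k1, -⟩ := key E hE hEf he (by rw [hK]; linarith)
  obtain ⟨-, k2⟩ := key E' hE' hEf' he' (by rw [hK]; linarith)
  refine ⟨γ⁻¹, g4, ?_⟩
  have n1 : 0 ≤ (lax A γ⁻¹).real E := measureReal_nonneg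
  have n2 : 0 ≤ (lax A γ⁻¹).real E' := measureReal_nonneg
  have hid : 1 + δ' = (1 + δ) * (1 - δ') := by
    rw [hδ']
    field_simp
    ring
  calc (nux A ν γ⁻¹).real E * (lax A γ⁻¹).real E'
      ≤ φ * (1 + δ') * (lax A γ⁻¹).real E * (lax A γ⁻¹).real E' :=
        mul_le_mul_of_nonneg_right k1 n2
    _ = (1 + δ) * (φ * (1 - δ') * (lax A γ⁻¹).real E') * (lax A γ⁻¹).real E := by
        rw [hid]; ring
    _ ≤ (1 + δ) * (nux A ν γ⁻¹).real E' * (lax A γ⁻¹).real E := by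
        refine mul_le_mul_of_nonneg_right ?_ n1
        exact mul_le_mul_of_nonneg_left k2 (by linarith)
    _ = (1 + δ) * ((nux A ν γ⁻¹).real E' * (lax A γ⁻¹).real E) := by ring

end Pool.Agent.SG
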