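import Pool.Agent.helper68.SG.SpecT

/-!
# Module sg:T01 (MP_2b8aea_gt): an HNN extension of a torsion free group is torsion free
-/

set_option autoImplicit false

open MeasureTheory Set Metric Filter Topology

namespace Pool.Agent.SG

open HNNExtension

section T01

variable {G : Type} [Group G] {A B : Subgroup G} (φ : A ≃* B)

/-- the product of a list of letters. -/
def T01_P (l : List (ℤˣ × G)) : HNNExtension G A B φ :=
  (l.map (fun x => t ^ (x.1 : ℤ) * of x.2)).prod

theorem T01_P_append (l l' : List (ℤˣ × G)) : T01_P φ (l ++ l') = T01_P φ l * T01_P φ l' := by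
  simp [T01_P]

theorem T01_P_cons (x : ℤˣ × G) (l : List (ℤˣ × G)) :
    T01_P φ (x :: l) = t ^ (x.1 : ℤ) * of x.2 * T01_P φ l := by
  simp [T01_P]

/-- the chain condition. -/
def T01_R (A B : Subgroup G) (a b : ℤˣ × G) : Prop := a.2 ∈ toSubgroup A B a.1 → a.1 = b.1

theorem T01_exists (x : HNNExtension G A B φ) :
    ∃ (g : G) (l : List (ℤˣ × G)), l.IsChain (T01_R A B) ∧ x = of g * T01_P φ l := by
  obtain ⟨d⟩ := (inferInstance : Nonempty (NormalWord.TransversalPair G A B))
  have h := NormalWord.prod_smul (φ := φ) x (NormalWord.empty : NormalWord d)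
  rw [NormalWord.prod_empty, mul_one] at h
  exact ⟨(x • (NormalWord.empty : NormalWord d)).head,
    (x • (NormalWord.empty : NormalWord d)).toList,
    (x • (NormalWord.empty : NormalWord d)).chain, h.symm⟩

/-- conjugation of an element of the subgroup by a power of the stable letter. -/
theorem T01_conj (u : ℤˣ) (h : G) (hh : h ∈ toSubgroup A B u) :
    ∃ g : G, (t ^ (u : ℤ) * of h * t ^ (((-u : ℤˣ)) : ℤ) : HNNExtension G A B φ) = of g := by
  rcases Int.units_eq_one_or u with rfl | rfl
  · refine ⟨φ ⟨h, hh⟩, ?_⟩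
    have := equiv_eq_conj (φ := φ) ⟨h, hh⟩
    rw [this]
    simp
  · refine ⟨φ.symm ⟨h, hh⟩, ?_⟩
    have := equiv_symm_eq_conj (φ := φ) ⟨h, hh⟩
    rw [this]
    simp

/-- the repeated list. -/
def T01_rep (l : List (ℤˣ × G)) : ℕ → List (ℤˣ × G)
  | 0 => []
  | n + 1 => l ++ T01_rep l n

theorem T01_rep_P (l : List (ℤˣ × G)) (n : ℕ) : T01_P φ (T01_rep l n) = T01_P φ l ^ n := by
  induction n with
  | zero => simp [T01_rep, T01_P]
  | succ n ih => rw [T01_rep, T01_P_append, ih, pow_succ']

omit [Group G] in
theorem T01_rep_length (l : List (ℤˣ × G)) (n : ℕ) : (T01_rep l n).length = n * l.length := by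
  induction n with
  | zero => simp [T01_rep]
  | succ n ih => rw [T01_rep, List.length_append, ih]; ring

omit [Group G] in
theorem T01_rep_head (l : List (ℤˣ × G)) (n : ℕ) (y : ℤˣ × G) (hy : y ∈ (T01_rep l n).head?) :
    y ∈ l.head? := by
  induction n with
  | zero => simp [T01_rep] at hy
  | succ n ih =>
    rw [T01_rep] at hy
    cases l with
    | nil =>
      simp only [List.nil_append] at hy
      exact ih hy
    | cons a l => simpa using hy

theorem T01_rep_chain (l : List (ℤˣ × G)) (hl : l.IsChain (T01_R A B))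
    (hc : ∀ x ∈ l.getLast?, ∀ y ∈ l.head?, T01_R A B x y) (n : ℕ) :
    (T01_rep l n).IsChain (T01_R A B) := by
  induction n with
  | zero => simp [T01_rep]
  | succ n ih =>
    rw [T01_rep, List.isChain_append]
    exact ⟨hl, ih, fun x hx y hy => hc x hx y (T01_rep_head l n y hy)⟩

end T01

theorem T01 : T01_stmt := by
  intro G _ A B φ hG x n hn hx
  classical
  -- the set of lengths of reduced words conjugate to `x`
  have hex : ∃ k : ℕ, ∃ (c : HNNExtension G A B φ) (g : G) (l : List (ℤˣ × G)),
      l.IsChain (T01_R A B) ∧ c * x * c⁻¹ = of g * T01_P φ l ∧ l.length = k := by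
    obtain ⟨g, l, hl, h⟩ := T01_exists φ x
    exact ⟨l.length, 1, g, l, hl, by simpa using h, rfl⟩
  obtain ⟨c, g, l, hl, hcl, hlen⟩ := Nat.find_spec hex
  have hmin := fun m (hm : m < Nat.find hex) => Nat.find_min hex hm
  rw [← hlen] at hmin
  have hxn : (c * x * c⁻¹) ^ n = 1 := by
    rw [conj_pow, hx]
    simp
  rcases List.eq_nil_or_concat l with hnil | ⟨l', ⟨u, h⟩, hll⟩
  · -- length `0`
    subst hnil
    have e1 : c * x * c⁻¹ = of g := by
      rw [hcl]
      simp [T01_P]
    rw [e1, ← map_pow] at hxn
    have e2 : g ^ n = 1 := of_injective (φ := φ) (by rw [hxn, map_one])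
    have e3 : g = 1 := hG g n hn e2
    rw [e3, map_one] at e1
    exact conj_eq_one_iff.1 e1
  · rw [List.concat_eq_append] at hll
    -- move the head into the last letter
    set l₂ : List (ℤˣ × G) := l' ++ [(u, h * g)] with hl₂
    have hch' := List.isChain_append.1 (hll ▸ hl)
    have hl₂c : l₂.IsChain (T01_R A B) := by
      rw [hl₂, List.isChain_append]
      refine ⟨hch'.1, by simp, fun x hx y hy => ?_⟩
      have := hch'.2.2 x hx (u, h) (by simp)
      simp only [List.head?_cons, Option.mem_def, Option.some.injEq] at hy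
      rw [← hy]
      exact this
    set c₂ : HNNExtension G A B φ := (of g)⁻¹ * c with hc₂
    have hy : c₂ * x * c₂⁻¹ = T01_P φ l₂ := by
      have e1 : c₂ * x * c₂⁻¹ = (of g)⁻¹ * (c * x * c⁻¹) * of g := by
        rw [hc₂]
        group
      rw [e1, hcl, hll, hl₂, T01_P_append, T01_P_append]
      simp [T01_P, mul_assoc]
    have hlen₂ : l₂.length = l.length := by rw [hl₂, hll]; simp
    have hyn : T01_P φ l₂ ^ n = 1 := by
      rw [← hy, conj_pow, hx]
      simp
    -- the cyclic chain condition
    have hcyc : ∀ a ∈ l₂.getLast?, ∀ b ∈ l₂.head?, T01_R A B a b := by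
      intro a ha b hb
      have ha' : a = (u, h * g) := by
        rw [hl₂] at ha
        simp at ha
        exact ha.symm
      subst ha'
      intro hmem
      cases l' with
      | nil =>
        simp [hl₂] at hb
        rw [← hb]
      | cons b' l'' =>
        have hb' : b' = b := by
          simp [hl₂] at hb
          exact hb
        subst hb'
        show u = b'.1
        by_contra hne
        have hub : b'.1 = -u := by
          rcases Int.units_eq_one_or u with h1 | h1 <;>
            rcases Int.units_eq_one_or b'.1 with h2 | h2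
          · exact absurd (h1.trans h2.symm) hne
          · rw [h1, h2]
          · rw [h1, h2, neg_neg]
          · exact absurd (h1.trans h2.symm) hne
        obtain ⟨k, hk⟩ := T01_conj φ u (h * g) hmem
        have hl3 : l''.IsChain (T01_R A B) := by
          have h1 := hch'.1
          rw [List.isChain_cons] at h1
          exact h1.2
        have hlt : l''.length < l.length := by
          rw [hll]
          simp
        apply hmin _ hlt
        refine ⟨(t ^ (u : ℤ) * of (h * g)) * c₂, k * b'.2, l'', hl3, ?_, rfl⟩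
        have e1 : t ^ (u : ℤ) * of (h * g) * c₂ * x * (t ^ (u : ℤ) * of (h * g) * c₂)⁻¹ =
            (t ^ (u : ℤ) * of (h * g)) * (c₂ * x * c₂⁻¹) * (t ^ (u : ℤ) * of (h * g))⁻¹ := by
          group
        have e2 : T01_P φ l₂ = t ^ (((-u : ℤˣ)) : ℤ) * of b'.2 * T01_P φ l'' *
            (t ^ (u : ℤ) * of (h * g)) := by
          rw [hl₂, T01_P_append, T01_P_cons, hub]
          simp [T01_P]
        rw [e1, hy, e2, map_mul of k b'.2, ← hk]
        group
    -- Britton's lemma
    have hfin := T01_rep_chain (A := A) (B := B) l₂ hl₂c hcyc n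
    let w : NormalWord.ReducedWord G A B := ⟨1, T01_rep l₂ n, hfin⟩
    have hw : w.prod φ = 1 := by
      show of (1 : G) * T01_P φ (T01_rep l₂ n) = 1
      rw [T01_rep_P, hyn, map_one, one_mul]
    have hnil := ReducedWord.toList_eq_nil_of_mem_of_range φ w (by
      rw [hw]
      exact Subgroup.one_mem _)
    have hlen3 : (T01_rep l₂ n).length = 0 := by
      have : T01_rep l₂ n = [] := hnil
      rw [this]
      rfl
    rw [T01_rep_length, hl₂] at hlen3
    simp at hlen3
    omega

end Pool.Agent.SG
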